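import Pool.Agent.Helper99.DS.All

/-!
# The numbers of independent and of minimal dominating sets of an arbitrary projective plane

In every projective plane of order `q` both logarithms are at least `q (log q) ^ 2 / 40` and at most
`666 q ^ (3 / 2)`.
-/

set_option autoImplicit false

namespace Pool.Agent.Results.MP_eddf4b_co.AllPlanes

open Pool.Agent.Helper1.DS Configuration

universe u v

theorem result (P : Type u) (L : Type v) [Membership P L] [ProjectivePlane P L] [Finite P]
    [Finite L] :
    (ProjectivePlane.order P L : ℝ) * (Real.logb 2 (ProjectivePlane.order P L)) ^ 2 / 40 ≤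
        Real.logb 2 (iNum P L) ∧
      Real.logb 2 (iNum P L) ≤ Real.logb 2 (mNum P L) ∧
      Real.logb 2 (mNum P L) ≤ 666 * (ProjectivePlane.order P L : ℝ) ^ (3 / 2 : ℝ) := by
  have : Fintype P := Fintype.ofFinite P
  have : Fintype L := Fintype.ofFinite L
  refine ⟨Pool.Agent.Helper99.DS.all_lower99 P L, ?_, mNum_upper P L⟩
  have h1 := Pool.Agent.Helper99.DS.line_lower99 P L
  have h2 : (0 : ℝ) < (iNum P L : ℝ) := by
    exact_mod_cast lt_of_lt_of_le (by positivity) h1
  apply Real.logb_le_logb_of_le (by norm_num) h2
  exact_mod_cast iNum_le_mNum P L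

end Pool.Agent.Results.MP_eddf4b_co.AllPlanes
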