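import Pool.Agent.Helper99.DS.Unif

/-!
# Dominating sets of Desarguesian planes of arbitrary order

For `q = p ^ h` the logarithms of the numbers of independent and of minimal dominating sets of
`PG(2, q)` are at least `q ^ (5 / 4 + 1 / (4 h) - o(1))`, uniformly in all prime powers `q`.
-/

set_option autoImplicit false

namespace Pool.Agent.Results.MP_eddf4b_co.Desarguesian

open Pool.Agent.Helper1.DS

open scoped LinearAlgebra.Projectivization

universe u

theorem result (ε : ℝ) (hε : 0 < ε) :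
    ∃ q₀ : ℕ, ∀ (p h : ℕ) (F : Type u) [Field F] [Finite F], p.Prime → Nat.card F = p ^ h →
      q₀ ≤ Nat.card F →
        (Nat.card F : ℝ) ^ (5 / 4 + 1 / (4 * h) - ε : ℝ) ≤
          Real.logb 2 (iNum (ℙ F (Fin 3 → F)) (ℙ F (Fin 3 → F))) ∧
        Real.logb 2 (iNum (ℙ F (Fin 3 → F)) (ℙ F (Fin 3 → F))) ≤
          Real.logb 2 (mNum (ℙ F (Fin 3 → F)) (ℙ F (Fin 3 → F))) ∧
        Real.logb 2 (mNum (ℙ F (Fin 3 → F)) (ℙ F (Fin 3 → F))) ≤
          666 * (Nat.card F : ℝ) ^ (3 / 2 : ℝ) := by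
  obtain ⟨q₀, hq₀⟩ := Pool.Agent.Helper99.DS.des_lower99.{u} hε
  exact ⟨q₀, fun p h F _ _ hp hF hq =>
    ⟨hq₀ p h F hp hF hq, Pool.Agent.Helper99.DS.des_upper99 F⟩⟩

end Pool.Agent.Results.MP_eddf4b_co.Desarguesian
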