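import Pool.Agent.Helper99.DS.Unif

/-!
# Dominating sets of planes over `GF(p ^ h)` with a generator of small height

If some monic integer polynomial of degree `h` with coefficients of absolute value at most `T` is
irreducible modulo the large prime `p`, then the logarithms of the numbers of independent and of
minimal dominating sets of `PG(2, q)`, `q = p ^ h`, are `q ^ (3 / 2 + o(1))`.
-/

set_option autoImplicit false

namespace Pool.Agent.Results.MP_eddf4b_co.PrimePowers

open Pool.Agent.Helper1.DS Polynomial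

open scoped LinearAlgebra.Projectivization

universe u

theorem result (h T : ℕ) (hh : 0 < h) (ε : ℝ) (hε : 0 < ε) :
    ∃ p₀ : ℕ, ∀ p : ℕ, p.Prime → p₀ ≤ p →
      (∃ f : ℤ[X], f.Monic ∧ f.natDegree = h ∧ (∀ i, |f.coeff i| ≤ T) ∧
        Irreducible (f.map (Int.castRingHom (ZMod p)))) →
      ∀ (F : Type u) [Field F] [Finite F], Nat.card F = p ^ h →
        (Nat.card F : ℝ) ^ (3 / 2 - ε) ≤
          Real.logb 2 (iNum (ℙ F (Fin 3 → F)) (ℙ F (Fin 3 → F))) ∧
        Real.logb 2 (iNum (ℙ F (Fin 3 → F)) (ℙ F (Fin 3 → F))) ≤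
          Real.logb 2 (mNum (ℙ F (Fin 3 → F)) (ℙ F (Fin 3 → F))) ∧
        Real.logb 2 (mNum (ℙ F (Fin 3 → F)) (ℙ F (Fin 3 → F))) ≤
          666 * (Nat.card F : ℝ) ^ (3 / 2 : ℝ) := by
  obtain ⟨p₀, hp₀⟩ := Pool.Agent.Helper99.DS.small_lower99.{u} h T hh hε
  exact ⟨p₀, fun p hp hpp hf F _ _ hF =>
    ⟨hp₀ p hp hpp hf F hF, Pool.Agent.Helper99.DS.des_upper99 F⟩⟩

end Pool.Agent.Results.MP_eddf4b_co.PrimePowers
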