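import Pool.Agent.Helper1.DS.Upper
import Pool.Agent.Helper1.DS.Lower

/-!
# The number of minimal and of independent dominating sets of projective planes

In every projective plane of order `q` the logarithm of the number of minimal dominating sets (of
points and lines) is at most `666 q ^ (3 / 2)`; in the Desarguesian plane over a field with `q`
elements, `q` a square, the logarithm of the number of independent dominating sets is at least
`q ^ (3 / 2)`.
-/

set_option autoImplicit false

namespace Pool.Agent.Results.MP_eddf4b_co.SquareOrder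

open Pool.Agent.Helper1.DS Configuration

open scoped LinearAlgebra.Projectivization

universe u v w

theorem result :
    (∀ (P : Type u) (L : Type v) [Membership P L] [ProjectivePlane P L] [Finite P] [Finite L],
      Real.logb 2 (iNum P L) ≤ Real.logb 2 (mNum P L) ∧
      Real.logb 2 (mNum P L) ≤ 666 * (ProjectivePlane.order P L : ℝ) ^ (3 / 2 : ℝ)) ∧
    ∀ (K : Type w) [Field K] [Finite K] [DecidableEq K], IsSquare (Nat.card K) →
      ProjectivePlane.order (ℙ K (Fin 3 → K)) (ℙ K (Fin 3 → K)) = Nat.card K ∧
      (Nat.card K : ℝ) ^ (3 / 2 : ℝ) ≤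
        Real.logb 2 (iNum (ℙ K (Fin 3 → K)) (ℙ K (Fin 3 → K))) := by
  refine ⟨?_, ?_⟩
  · intro P L _ _ _ _
    have : Fintype P := Fintype.ofFinite P
    have : Fintype L := Fintype.ofFinite L
    refine ⟨?_, mNum_upper P L⟩
    rcases Nat.eq_zero_or_pos (iNum P L) with h0 | h0
    · rw [h0]
      rcases Nat.eq_zero_or_pos (mNum P L) with h1 | h1
      · rw [h1]
      · rw [Nat.cast_zero, Real.logb_zero]
        exact Real.logb_nonneg (by norm_num) (by exact_mod_cast h1)
    · apply Real.logb_le_logb_of_le (by norm_num) (by exact_mod_cast h0)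
      exact_mod_cast iNum_le_mNum P L
  · intro K _ _ _ hsq
    refine ⟨order_eq, ?_⟩
    obtain ⟨r, hr⟩ := hsq
    have hK : Nat.card K = r ^ 2 := by rw [hr, sq]
    have h1 := unital_lower hK
    have h2 : (0 : ℝ) < (iNum (ℙ K (Fin 3 → K)) (ℙ K (Fin 3 → K)) : ℝ) := by
      have : 0 < 2 ^ (r ^ 3) := by positivity
      exact_mod_cast lt_of_lt_of_le this h1
    rw [Real.le_logb_iff_rpow_le (by norm_num) h2]
    have h3 : (Nat.card K : ℝ) ^ (3 / 2 : ℝ) = ((r ^ 3 : ℕ) : ℝ) := by
      rw [hK]
      push_cast
      rw [← Real.rpow_natCast, ← Real.rpow_mul (Nat.cast_nonneg r), ← Real.rpow_natCast]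
      congr 1
      norm_num
    rw [h3, Real.rpow_natCast]
    exact_mod_cast h1

end Pool.Agent.Results.MP_eddf4b_co.SquareOrder
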